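import Pool.Agent.H22.SBE.Exact

/-!
# The number of special braids in `B_n`, by exponent sum

`Binf` is the braid group on infinitely many strands, `s i` is the generator `σ_{i+1}`, `B n` is
the subgroup `B_n` generated by `σ_1, …, σ_{n-1}`, `sh` is the shift,
`op a b = a · sh(b) · σ_1 · sh(a)⁻¹`, `Special` says that a braid is special, `SpecialIn n` is the
set of special braids in `B_n`, `SpecialOf n e` is the set of those of exponent sum `e`, and
`tau k = σ_k ⋯ σ_1`.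
-/

set_option autoImplicit false

namespace Pool.Agent.Results.MP_c15459_al.SpecialBraidsByExponentSum

open Pool.Agent.K7.H32.SB Pool.Agent.H22.SBE

theorem result :
    -- (1) the number of special braids in `B_n`
    ((SpecialIn 1).ncard = 1 ∧ (SpecialIn 2).ncard = 2 ∧ (SpecialIn 3).ncard = 4 ∧
      (SpecialIn 4).ncard = 10 ∧ ∀ n : ℕ, 5 ≤ n → (SpecialIn n).Infinite) ∧
    -- (2) the possible exponent sums
    (∀ n : ℕ, 1 ≤ n → ∀ e : ℤ, (SpecialOf n e).Nonempty ↔ 0 ≤ e ∧ e < n) ∧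
    -- (3) the two extreme exponent sums
    (∀ k : ℕ, SpecialOf (k + 1) 0 = {1} ∧ SpecialOf (k + 1) k = {tau k}) ∧
    -- (4) exponent sum one
    (∀ n : ℕ, 1 ≤ n → Set.BijOn (fun x => op x 1) (SpecialIn n) (SpecialOf (n + 1) 1)) ∧
    -- (5) the other finite values
    ((SpecialOf 3 1).ncard = 2 ∧ (SpecialOf 4 1).ncard = 4 ∧ (SpecialOf 4 2).ncard = 4 ∧
      (SpecialOf 5 1).ncard = 10) ∧
    -- (6) all remaining cases: infinitely many, even outside `B_{n-1}`
    (∀ n : ℕ, 5 ≤ n → ∀ e : ℤ, 1 ≤ e → e + 2 ≤ n → ¬ (n = 5 ∧ e = 1) →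
      {g | g ∈ SpecialOf n e ∧ g ∉ B (n - 1)}.Infinite) ∧
    -- (7) in all these cases infinitely many conjugacy classes (of the whole group) of special
    -- braids outside `B_{n-1}`
    (∀ n : ℕ, 5 ≤ n → ∀ e : ℤ, 1 ≤ e → e + 2 ≤ n → ¬ (n = 5 ∧ e = 1) →
      ∃ f : ℕ → Binf, (∀ k, f k ∈ SpecialOf n e ∧ f k ∉ B (n - 1)) ∧
        ∀ k l : ℕ, k ≠ l → ¬ IsConj (f k) (f l)) := by
  refine ⟨⟨count1, count2, count3, count4_exact, count5⟩, ?_, ?_, ?_, ⟨?_, ?_, ncard42, ?_⟩, ?_,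
    fun n hn e h1 h2 h3 => goodAll hn h1 h2 h3⟩
  · intro n hn e
    constructor
    · exact range_expSum hn
    · rintro ⟨h0, h1⟩
      obtain ⟨k, rfl⟩ : ∃ k : ℕ, e = k := ⟨e.toNat, by omega⟩
      exact ⟨tau k, tau_special k, B_mono (by omega) (tau_mem k), expSum_tau k⟩
  · exact fun k => ⟨set_zero _, set_top k⟩
  · intro n hn
    rw [set_one hn]
    exact (op_one_injective.injOn).bijOn_image
  · rw [ncard_one (by norm_num : 1 ≤ 2), count2]
  · rw [ncard_one (by norm_num : 1 ≤ 3), count3]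
  · rw [ncard_one (by norm_num : 1 ≤ 4), count4_exact]
  · intro n hn e h1 h2 h3
    exact newAll hn h1 h2 (fun h4 h5 => h3 ⟨h4, h5⟩)

end Pool.Agent.Results.MP_c15459_al.SpecialBraidsByExponentSum
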